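import Pool.Agent.Helper8.SE.Sheet

/-! Row PHI of sheet SE. -/

open Set Filter Topology

namespace Pool.Agent.Helper47.SE

open Pool.Agent.Helper8.SE

universe u

lemma sq_tendsto (c : ℝ) (hc : 0 < c) (a b : ℕ → ℝ)
    (h : ∀ n, c * ((a n) ^ 2 + (b n) ^ 2) ≤ 2 * (1 / ((n : ℝ) + 1))) :
    Tendsto a atTop (𝓝 0) := by
  have h1 : Tendsto (fun n : ℕ => (2 / c) * (1 / ((n : ℝ) + 1))) atTop (𝓝 0) := by
    have := (tendsto_one_div_add_atTop_nhds_zero_nat (𝕜 := ℝ)).const_mul (2 / c)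
    rw [mul_zero] at this
    exact this
  have h2 : Tendsto (fun n => (a n) ^ 2) atTop (𝓝 0) := by
    refine squeeze_zero (fun n => sq_nonneg _) (fun n => ?_) h1
    have h3 := h n
    have h4 : 0 ≤ (b n) ^ 2 := sq_nonneg _
    rw [div_mul_eq_mul_div, le_div_iff₀ hc]
    nlinarith
  have h5 : Tendsto (fun n => |a n|) atTop (𝓝 0) := by
    have h6 := h2.sqrt
    rw [Real.sqrt_zero] at h6
    simpa [Real.sqrt_sq_eq_abs] using h6
  exact (tendsto_zero_iff_abs_tendsto_zero a).mpr h5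

theorem stPHI (hM : ST_PHM.{u}) (hC : ST_PHC.{u}) (hK : ST_KK.{u}) : ST_PHI.{u} := by
  intro X _ _ _ _ δ hδ
  obtain ⟨g, hg⟩ := TopologicalSpace.exists_dense_seq (StrongDual ℝ X)
  have : SecondCountableTopology X := UniformSpace.secondCountable_of_separable X
  have : Nonempty (Metric.closedBall (0 : X) 1) := ⟨⟨0, by simp⟩⟩
  obtain ⟨xs, hxs⟩ := TopologicalSpace.exists_dense_seq (Metric.closedBall (0 : X) 1)
  let x : ℕ → X := fun j => (xs j : X)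
  have hx1 : ∀ j, ‖x j‖ ≤ 1 := by
    intro j
    have := (xs j).2
    rwa [mem_closedBall_zero_iff] at this
  have hxd : ∀ y : X, ‖y‖ ≤ 1 → ∀ ε : ℝ, 0 < ε → ∃ j, ‖y - x j‖ < ε := by
    intro y hy ε hε
    obtain ⟨j, hj⟩ := hxs.exists_dist_lt
      (⟨y, by rwa [mem_closedBall_zero_iff]⟩ : Metric.closedBall (0 : X) 1) hε
    refine ⟨j, ?_⟩
    rw [Subtype.dist_eq, dist_eq_norm] at hj
    exact hj
  obtain ⟨p0, p1, p2⟩ := hM X δ hδ g x hx1
  refine ⟨phi δ g x, p0, p1, fun y => ?_⟩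
  obtain ⟨f₀, hf₀, hmax⟩ := p2 y
  refine ⟨f₀, hf₀, hmax, fun ε hε => ?_⟩
  by_contra hcon
  push Not at hcon
  have hu : ∀ n : ℕ, ∃ f : StrongDual ℝ X, ‖f‖ ≤ 1 ∧
      f₀ y - phi δ g x f₀ - 1 / ((n : ℝ) + 1) ≤ f y - phi δ g x f ∧ ε < ‖f - f₀‖ :=
    fun n => hcon (1 / ((n : ℝ) + 1)) (by positivity)
  choose u hu1 hu2 hu3 using hu
  have hb : ∀ j n, δ * (1 / 2 : ℝ) ^ (j + 2) *
      ((u n (x j) - f₀ (x j)) ^ 2 + (pj g j (u n) - pj g j f₀) ^ 2) ≤
      2 * (1 / ((n : ℝ) + 1)) := by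
    intro j n
    have h1 := hC X δ hδ g x hx1 y f₀ hf₀ hmax (u n) (hu1 n) j
    have h2 := hu2 n
    linarith
  have hc : ∀ j : ℕ, 0 < δ * (1 / 2 : ℝ) ^ (j + 2) := fun j => by positivity
  have t1 : ∀ j, Tendsto (fun n => u n (x j)) atTop (𝓝 (f₀ (x j))) := by
    intro j
    have h1 := sq_tendsto _ (hc j) (fun n => u n (x j) - f₀ (x j))
      (fun n => pj g j (u n) - pj g j f₀) (hb j)
    have h2 := h1.add_const (f₀ (x j))
    simpa using h2
  have t2 : ∀ j, Tendsto (fun n => pj g j (u n)) atTop (𝓝 (pj g j f₀)) := by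
    intro j
    have h1 := sq_tendsto _ (hc j) (fun n => pj g j (u n) - pj g j f₀)
      (fun n => u n (x j) - f₀ (x j)) (fun n => by
        have h3 := hb j n
        rwa [add_comm ((u n (x j) - f₀ (x j)) ^ 2)] at h3)
    have h2 := h1.add_const (pj g j f₀)
    simpa using h2
  have t3 := hK X g x hg hx1 hxd f₀ u hf₀ hu1 t1 t2
  have t4 : Tendsto (fun n => ‖u n - f₀‖) atTop (𝓝 0) := by
    have := (t3.sub_const f₀).norm
    simpa using this
  obtain ⟨n, hn⟩ := (t4.eventually (gt_mem_nhds hε)).exists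
  have := hu3 n
  linarith

end Pool.Agent.Helper47.SE
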